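import Mathlib

open Set Filter Topology BoundedContinuousFunction

namespace Pool.Agent.Results.MP_c65f17_an.Exists

/-- `P` is a closed cone. -/
def IsCone {X : Type} [NormedAddCommGroup X] [NormedSpace ℝ X] (P : Set X) : Prop :=
  IsClosed P ∧ (∀ x ∈ P, ∀ y ∈ P, x + y ∈ P) ∧ (∀ c : ℝ, 0 ≤ c → ∀ x ∈ P, c • x ∈ P) ∧
    ∀ x ∈ P, -x ∈ P → x = 0

/-- `P` is normal: `0 ≤ x ≤ y` gives `‖x‖ ≤ C ‖y‖`. -/
def IsNormal {X : Type} [NormedAddCommGroup X] (P : Set X) : Prop :=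
  ∃ C : ℝ, 1 ≤ C ∧ ∀ x y : X, x ∈ P → y - x ∈ P → ‖x‖ ≤ C * ‖y‖

/-- `u` is an upper bound of `x` for the order `a ≤ b ↔ b - a ∈ P`. -/
def IsUB {X : Type} [AddCommGroup X] (P : Set X) (x : ℕ → X) (u : X) : Prop := ∀ j, u - x j ∈ P

noncomputable def W : Submodule ℝ (ℕ →ᵇ ℝ) where
  carrier := {f | Tendsto (fun n => f n) atTop (𝓝 (f 0 + f 1))}
  add_mem' := by
    intro f g hf hg
    have := hf.add hg
    simp only [mem_setOf_eq, coe_add, Pi.add_apply]
    rwa [show f 0 + g 0 + (f 1 + g 1) = f 0 + f 1 + (g 0 + g 1) by ring]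
  zero_mem' := by simp
  smul_mem' := by
    intro c f hf
    have := hf.const_mul c
    simp only [mem_setOf_eq, coe_smul, Pi.smul_apply, smul_eq_mul]
    rwa [← mul_add]

lemma W_closed : IsClosed (W : Set (ℕ →ᵇ ℝ)) := by
  refine isClosed_of_closure_subset fun f hf => ?_
  show Tendsto (fun n => f n) atTop (𝓝 (f 0 + f 1))
  rw [Metric.tendsto_atTop]
  intro ε hε
  obtain ⟨g, hg, hd⟩ := Metric.mem_closure_iff.1 hf (ε / 4) (by linarith)
  obtain ⟨N, hN⟩ := Metric.tendsto_atTop.1 (show Tendsto (fun n => g n) atTop (𝓝 (g 0 + g 1)) from hg)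
    (ε / 4) (by linarith)
  refine ⟨N, fun n hn => ?_⟩
  have h : ∀ k, |f k - g k| < ε / 4 := fun k => (dist_coe_le_dist k).trans_lt hd
  have h0 := abs_lt.1 (h 0)
  have h1 := abs_lt.1 (h 1)
  have h2 := abs_lt.1 (h n)
  have h3 := abs_lt.1 (show |g n - (g 0 + g 1)| < ε / 4 from hN n hn)
  rw [Real.dist_eq, abs_lt]
  constructor <;> linarith

noncomputable def mk (f : ℕ → ℝ) (hb : ∀ n, |f n| ≤ 2) (N : ℕ) (h : ∀ n, N ≤ n → f n = f 0 + f 1) : W :=
  ⟨ofNormedAddCommGroupDiscrete f 2 hb, tendsto_atTop_of_eventually_const (i₀ := N) h⟩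

/-- There is an ordered Banach space with a normal (and generating) cone and an increasing sequence
with a minimal upper bound and no supremum. -/
theorem result : ∃ (X : Type) (_ : NormedAddCommGroup X) (_ : NormedSpace ℝ X) (_ : CompleteSpace X)
    (P : Set X), IsCone P ∧ IsNormal P ∧ (∀ z : X, ∃ a ∈ P, ∃ b ∈ P, z = a - b) ∧
    ∃ x : ℕ → X, (∀ j k, j ≤ k → x k - x j ∈ P) ∧
      (∃ u, IsUB P x u ∧ ∀ v, IsUB P x v → u - v ∈ P → v = u) ∧
      ¬ ∃ s, IsUB P x s ∧ ∀ v, IsUB P x v → v - s ∈ P := by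
  haveI : CompleteSpace W := W_closed.completeSpace_coe
  let x : ℕ → W := fun j => mk (fun n => if 2 ≤ n ∧ n < j then 1 else 0)
    (fun n => by split_ifs <;> norm_num) j (fun n hn => by simp; omega)
  let u : ℕ → W := fun i => mk (fun n => if n = i ∧ n < 2 then 0 else if n < 2 ∧ 2 ≤ i then 1 else if 2 ≤ i then 2 else 1)
    (fun n => by split_ifs <;> norm_num) 2 (fun n hn => by
      rcases i with _ | _ | i <;> simp [show ¬ n < 2 by omega] <;> norm_num)
  have hx : ∀ j n, (x j).1 n = if 2 ≤ n ∧ n < j then 1 else 0 := fun _ _ => rfl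
  have hu : ∀ i n, (u i).1 n = if n = i ∧ n < 2 then 0 else if n < 2 ∧ 2 ≤ i then 1 else if 2 ≤ i then 2 else 1 :=
    fun _ _ => rfl
  have hUB : ∀ v : W, IsUB {f : W | ∀ n, 0 ≤ f.1 n} x v ↔ (0 ≤ v.1 0 ∧ 0 ≤ v.1 1 ∧ ∀ n, 2 ≤ n → 1 ≤ v.1 n) := by
    intro v
    constructor
    · intro h
      refine ⟨?_, ?_, fun n hn => ?_⟩
      · simpa [hx] using h 0 0
      · simpa [hx] using h 0 1
      · simpa [hx, hn] using h (n + 1) n
    · rintro ⟨h0, h1, h2⟩ j n
      simp only [AddSubgroupClass.coe_sub, coe_sub, Pi.sub_apply, hx]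
      rcases n with _ | _ | n
      · simpa using h0
      · simpa using h1
      · have := h2 (n + 1 + 1) (by omega)
        split_ifs <;> linarith
  have hsum : ∀ v : W, (∀ n, 2 ≤ n → 1 ≤ v.1 n) → 1 ≤ v.1 0 + v.1 1 := fun v h =>
    ge_of_tendsto v.2 (eventually_atTop.2 ⟨2, h⟩)
  have hu0 : IsUB {f : W | ∀ n, 0 ≤ f.1 n} x (u 0) := (hUB _).2 ⟨by simp [hu], by simp [hu], fun n hn => by
    simp [hu, show n ≠ 0 by omega]⟩
  have hu1 : IsUB {f : W | ∀ n, 0 ≤ f.1 n} x (u 1) := (hUB _).2 ⟨by simp [hu], by simp [hu], fun n hn => by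
    simp [hu, show n ≠ 1 by omega]⟩
  refine ⟨W, inferInstance, inferInstance, inferInstance, {f | ∀ n, 0 ≤ f.1 n}, ⟨?_, ?_, ?_, ?_⟩, ⟨1, le_rfl, ?_⟩,
    ?_, x, ?_, ⟨u 0, hu0, ?_⟩, ?_⟩
  · simp only [setOf_forall]
    exact isClosed_iInter fun n => isClosed_le continuous_const
      ((continuous_eval_const n).comp continuous_subtype_val)
  · intro f hf g hg n
    exact add_nonneg (hf n) (hg n)
  · intro c hc f hf n
    exact mul_nonneg hc (hf n)
  · intro f hf hg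
    ext n
    have h1 : 0 ≤ -(f.1 n) := hg n
    have h2 := hf n
    show f.1 n = 0
    linarith
  · intro f g hf hg
    rw [one_mul]
    show ‖f.1‖ ≤ ‖g.1‖
    refine (norm_le (norm_nonneg _)).2 fun n => ?_
    have h1 : 0 ≤ g.1 n - f.1 n := hg n
    rw [Real.norm_of_nonneg (hf n)]
    exact (sub_nonneg.1 h1).trans ((le_abs_self _).trans (norm_coe_le_norm g.1 n))
  · intro z
    have h : ∀ n, 1 ≤ (u 2).1 n := fun n => by
      rw [hu]; split_ifs <;> first | omega | norm_num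
    refine ⟨‖z‖ • u 2, fun n => mul_nonneg (show 0 ≤ ‖z‖ by positivity) (zero_le_one.trans (h n)), ‖z‖ • u 2 - z,
      fun n => ?_, by abel⟩
    show 0 ≤ ‖z‖ * (u 2).1 n - z.1 n
    have h1 : z.1 n ≤ ‖z‖ := (le_abs_self _).trans (norm_coe_le_norm z.1 n)
    nlinarith [h n, show 0 ≤ ‖z‖ by positivity]
  · intro j k hjk n
    show 0 ≤ (x k).1 n - (x j).1 n
    rw [hx, hx]
    split_ifs <;> first | omega | norm_num
  · intro v hv huv
    obtain ⟨h0, h1, h2⟩ := (hUB v).1 hv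
    have h3 := hsum v h2
    have h4 : ∀ n, v.1 n ≤ (u 0).1 n := fun n => sub_nonneg.1 (huv n)
    have h5 : v.1 0 ≤ 0 := by simpa [hu] using h4 0
    ext n
    refine le_antisymm (h4 n) ?_
    rcases n with _ | _ | n
    · simpa [hu] using h0
    · simp only [hu]; norm_num; linarith
    · simpa [hu] using h2 (n + 1 + 1) (by omega)
  · rintro ⟨s, hs, hmin⟩
    obtain ⟨-, -, h2⟩ := (hUB s).1 hs
    have h3 := hsum s h2
    have h4 : s.1 0 ≤ (u 0).1 0 := sub_nonneg.1 (hmin _ hu0 0)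
    have h5 : s.1 1 ≤ (u 1).1 1 := sub_nonneg.1 (hmin _ hu1 1)
    simp only [hu] at h4 h5
    norm_num at h4 h5
    linarith

end Pool.Agent.Results.MP_c65f17_an.Exists
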